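import Pool.Agent.V1137.SHDCube

open Filter Topology Set

namespace Pool.Agent.Results.MP_8ff099_gt.StoneCechSHD

open Pool.Agent.V1137.SHDCube

/-- The inclusion of the `Σ`-product in the cube. -/
def e : Sig I → (I → Bool) := Subtype.val

theorem continuous_e : Continuous e := continuous_subtype_val

/-- The extension of the inclusion to the Stone-Čech compactification. -/
noncomputable def E : StoneCech (Sig I) → (I → Bool) := stoneCechExtend continuous_e

theorem continuous_E : Continuous E := continuous_stoneCechExtend continuous_e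

theorem E_unit (x : Sig I) : E (stoneCechUnit x) = x.1 := by
  have := congrFun (stoneCechExtend_extends continuous_e) x
  exact this

/-- The image under `E` of a nonempty open set contains a basic open set of the cube. -/
theorem image_cyl (U : Set (StoneCech (Sig I))) (hU : IsOpen U) (hne : U.Nonempty) :
    ∃ (u : I → Bool) (F : Finset I), ∀ w : I → Bool, (∀ i ∈ F, w i = u i) →
      ∃ p ∈ U, E p = w := by
  obtain ⟨q, hq⟩ := hne
  obtain ⟨O, hO, hqO, hOU⟩ : ∃ O : Set (StoneCech (Sig I)), IsOpen O ∧ q ∈ O ∧ closure O ⊆ U := by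
    obtain ⟨t, ht, htc, htU⟩ := exists_mem_nhds_isClosed_subset (hU.mem_nhds hq)
    refine ⟨interior t, isOpen_interior, mem_interior_iff_mem_nhds.2 ht, ?_⟩
    exact (closure_minimal interior_subset htc).trans htU
  obtain ⟨x, hx⟩ : ∃ x : Sig I, stoneCechUnit x ∈ O :=
    denseRange_stoneCechUnit.exists_mem_open hO ⟨q, hqO⟩
  have hpre : IsOpen (stoneCechUnit ⁻¹' O : Set (Sig I)) := hO.preimage continuous_stoneCechUnit
  obtain ⟨W, hW, hWO⟩ := isOpen_induced_iff.1 hpre
  have hxW : x.1 ∈ W := by
    have : x ∈ Subtype.val ⁻¹' W := by rw [hWO]; exact hx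
    exact this
  obtain ⟨F, hF⟩ := exists_cyl' W hW x.1 hxW
  refine ⟨x.1, F, fun w hw => ?_⟩
  have hcl : IsClosed (E '' closure O) := (isClosed_closure.isCompact.image continuous_E).isClosed
  have hmem : w ∈ closure (E '' closure O) := by
    rw [mem_closure_iff]
    intro V hV hwV
    -- a point of the `Σ`-product in `V` which agrees with `x` on `F`
    have hcyl : IsOpen {v : I → Bool | ∀ i ∈ F, v i = w i} := by
      have : {v : I → Bool | ∀ i ∈ F, v i = w i} = ⋂ i ∈ F, (fun v : I → Bool => v i) ⁻¹' {w i} := by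
        ext v; simp
      rw [this]
      exact isOpen_biInter_finset fun i _ => (isOpen_discrete _).preimage (continuous_apply i)
    obtain ⟨z, ⟨hzV, hzF⟩, hzS⟩ := (dense_sig I).inter_open_nonempty _ (hV.inter hcyl)
      ⟨w, hwV, fun _ _ => rfl⟩
    have hzW : z ∈ W := hF z fun i hi => (hzF i hi).trans (hw i hi)
    refine ⟨z, hzV, stoneCechUnit ⟨z, hzS⟩, subset_closure ?_, E_unit ⟨z, hzS⟩⟩
    have : (⟨z, hzS⟩ : Sig I) ∈ Subtype.val ⁻¹' W := hzW
    rw [hWO] at this
    exact this
  rw [hcl.closure_eq] at hmem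
  obtain ⟨p, hp, hpw⟩ := hmem
  exact ⟨p, hOU hp, hpw⟩

theorem shd_stoneCech : SHD (StoneCech (Sig I)) := by
  intro U hU
  choose u F hF using fun n => image_cyl (U n) (hU n).1 (hU n).2
  obtain ⟨x, hx, hdiv⟩ := cube_choice u F
  choose p hp hpx using fun n => hF n (x n) (hx n)
  refine ⟨p, hp, fun φ hφ a ha => ?_⟩
  refine hdiv φ hφ (E a) ?_
  have := (continuous_E.tendsto a).comp ha
  refine this.congr fun k => ?_
  exact hpx (φ k)

theorem not_compact : ¬ CompactSpace (Sig I) := by
  intro h
  have h1 : IsClosed (Sig I) := (isCompact_iff_compactSpace.2 h).isClosed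
  have h2 : Sig I = Set.univ := by
    rw [← h1.closure_eq]; exact (dense_sig I).closure_eq
  have h3 : (fun _ => true : I → Bool) ∈ Sig I := by rw [h2]; trivial
  have h4 : {i : I | (fun _ => true : I → Bool) i = true}.Countable := h3
  apply uncountable_J
  refine (h4.image Prod.snd).mono ?_
  intro j _
  exact ⟨(j, j), rfl, rfl⟩

/-- A non-compact Tychonoff space whose Stone-Čech compactification is selectively highly
divergent, while the space itself is not. -/
theorem result :
    ∃ (X : Type) (_ : TopologicalSpace X),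
      T35Space X ∧ ¬ CompactSpace X ∧ SHD (StoneCech X) ∧ ¬ SHD X :=
  ⟨Sig I, inferInstance, inferInstance, not_compact, shd_stoneCech, not_shd_sig I⟩

end Pool.Agent.Results.MP_8ff099_gt.StoneCechSHD
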